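import Pool.Agent.Lib.MP_57045c_lc.Proof

set_option autoImplicit false

namespace Pool.Agent.Results.MP_57045c_lc.Characterization

open Pool.Agent.Lib.MP_57045c_lc

/-- Complete description of the sequential OWA rules under which free-riding is never harmful;
there is such a rule other than the utilitarian rule. -/
theorem result :
    (∀ (R : OWARule) (n : ℕ) (hn : 0 < n), NeverHarmfulFor n (R.weight n) ↔
      (∀ i j, R.weight n i = R.weight n j) ∨
      (n = 2 ∧ StrictAnti (R.weight n)) ∨
      (n = 3 ∧ StrictAnti (R.weight n) ∧ 2 * R.weight n ⟨0, hn⟩ < ∑ j, R.weight n j)) ∧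
    ∃ R : OWARule, R.NeverHarmful ∧ ¬ R.Utilitarian := by
  refine ⟨fun R n hn => main_iff n hn (R.weight n) (R.nonneg n), ?_⟩
  let w : (n : ℕ) → Fin n → ℝ := fun n j => if n = 2 ∨ n = 3 then 4 - (j : ℝ) else 1
  have hpos : ∀ (n : ℕ) (j : Fin n), 0 < w n j := by
    intro n j
    simp only [w]
    split_ifs with h
    · have : (j : ℕ) < 3 := by omega
      have : ((j : ℕ) : ℝ) < 3 := by exact_mod_cast this
      linarith
    · norm_num
  refine ⟨⟨w, fun n hn => hpos n _, fun n j => (hpos n j).le⟩, ?_, ?_⟩
  · intro n
    rcases Nat.eq_zero_or_pos n with rfl | hn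
    · intro F A B v; exact v.elim0
    · show NeverHarmfulFor n (w n)
      rw [main_iff n hn (w n) fun j => (hpos n j).le]
      by_cases h2 : n = 2
      · subst h2
        right; left
        refine ⟨rfl, ?_⟩
        intro i j hij
        have : ((i : ℕ) : ℝ) < ((j : ℕ) : ℝ) := by exact_mod_cast hij
        simp only [w, true_or, if_true]
        linarith
      · by_cases h3 : n = 3
        · subst h3
          right; right
          refine ⟨rfl, ?_, ?_⟩
          · intro i j hij
            have : ((i : ℕ) : ℝ) < ((j : ℕ) : ℝ) := by exact_mod_cast hij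
            simp only [w, or_true, if_true]
            linarith
          · rw [Fin.sum_univ_three]
            simp only [w, or_true, if_true]
            norm_num
        · left
          intro i j
          simp [w, h2, h3]
  · intro hU
    have := hU 2 0 1
    simp [w] at this
    norm_num at this

end Pool.Agent.Results.MP_57045c_lc.Characterization
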